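import Mathlib
import Pool.Agent.H314.DM.Main

set_option autoImplicit false

namespace Pool.Agent.Results.MP_d7d3dc_an.SqrtGrowth

universe u

/-- `D_m ≥ √m / 30` for every `m ≥ 1`: there is an `m`-dimensional real normed space `X` whose
Banach-Mazur distance to every `m`-dimensional real normed space `Y` of numerical index one is at
least `√m / 30`. -/
theorem result (m : ℕ) (hm : 1 ≤ m) :
    ∃ (X : Type) (_ : NormedAddCommGroup X) (_ : NormedSpace ℝ X), Module.finrank ℝ X = m ∧
      ∀ (Y : Type u) [NormedAddCommGroup Y] [NormedSpace ℝ Y], Module.finrank ℝ Y = m →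
        Pool.Agent.Helper689.CL.numIndex Y = 1 →
          Real.sqrt m / 30 ≤ Pool.Agent.Helper689.CL.bmDist X Y :=
  Pool.Agent.H314.DM.main m hm

end Pool.Agent.Results.MP_d7d3dc_an.SqrtGrowth
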